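import Pool.Agent.Run7.h613.NG.Dir
import Pool.Agent.Run7.h613.NG.Chars

/-!
# Distinct zeros of all Dirichlet L-functions in EVERY short interval near typical numbers

No hypothesis is assumed. Let `0 < η < 1`, `ε > 0`, `j ≥ 1` and let `χ` be a primitive Dirichlet character. There are `s < 1`,
`κ > 0` and a set `S` of integers with `O(X ^ (s + δ))` elements up to `X`, for every `δ > 0`, such that for all large real
numbers `T` with integral part outside `S` EVERY interval `(a, b]` of length at least `T ^ η` in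
`[T - T ^ (η + κ), T + T ^ (η + κ)]` satisfies
`N_d ≥ ((2 j + 1 - c) / (j (j + 1)) - ε) N + (excess multiplicity) / (j (j + 1)) + (j² + 1) / (2 j (j + 1)) N_off`,
`c = c((1 + η) / 2)`, `c(h) = h/2 + cot(h/√2)/√2`. In particular more than `17/36` of the zeros are distinct, for EVERY `η > 0`;
for arbitrary intervals of length `T ^ η` the known bound is with `c(η)`, and tends to `0` with `η`.

Consequently the bound `17/36` holds for ALL primitive characters of all moduli and all exponents `η > 0` in a given countable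
set at once near the values of generic linear forms and at the powers of almost every number.
-/

set_option autoImplicit false

open Filter Topology MeasureTheory

namespace Pool.Agent.Results.MP_f259ea_nt.EveryIntervalTypical

open Run7.h613.NG (Typical Fam Fast)

/-- the multiplicity of `s` as a zero of `L(s, χ)` -/
noncomputable def mult {q : ℕ} [NeZero q] (χ : DirichletCharacter ℂ q) (s : ℂ) : ℕ :=
  analyticOrderNatAt (DirichletCharacter.LFunction χ) s

/-- the nontrivial zeros of `L(s, χ)` with ordinate in `(a, b]` -/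
def zeros {q : ℕ} [NeZero q] (χ : DirichletCharacter ℂ q) (a b : ℝ) : Set ℂ :=
  {s : ℂ | DirichletCharacter.LFunction χ s = 0 ∧ 0 < s.re ∧ s.re < 1 ∧ a < s.im ∧ s.im ≤ b}

/-- the number of nontrivial zeros with ordinate in `(a, b]`, counted with multiplicity -/
noncomputable def N {q : ℕ} [NeZero q] (χ : DirichletCharacter ℂ q) (a b : ℝ) : ℕ :=
  ∑ᶠ s ∈ zeros χ a b, mult χ s

/-- the number of distinct zeros with ordinate in `(a, b]` -/
noncomputable def Nd {q : ℕ} [NeZero q] (χ : DirichletCharacter ℂ q) (a b : ℝ) : ℕ := (zeros χ a b).ncard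

/-- the number of distinct zeros off the critical line with ordinate in `(a, b]` -/
noncomputable def Noff {q : ℕ} [NeZero q] (χ : DirichletCharacter ℂ q) (a b : ℝ) : ℕ :=
  {s : ℂ | s ∈ zeros χ a b ∧ s.re ≠ 1 / 2}.ncard

/-- the excess multiplicity: a zero of multiplicity `m` counts `max (m - (j + 1)) 0` if it is on the
critical line and `m - 1` if it is off the line (subtraction of natural numbers) -/
noncomputable def excess {q : ℕ} [NeZero q] (χ : DirichletCharacter ℂ q) (j : ℕ) (a b : ℝ) : ℕ :=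
  ∑ᶠ s ∈ zeros χ a b, (if s.re = 1 / 2 then mult χ s - (j + 1) else mult χ s - 1)

/-- the constant `c(h) = h/2 + cot(h/√2)/√2`; `c(1) = c_MT⁻¹ = 1.3274...` -/
noncomputable def c (h : ℝ) : ℝ := h / 2 + Real.cot (h / Real.sqrt 2) / Real.sqrt 2

/-- the bound for the number of distinct zeros in `(a, b]` with the parameters `j`, `h`, `ε` -/
def Bound {q : ℕ} [NeZero q] (χ : DirichletCharacter ℂ q) (j : ℕ) (h ε a b : ℝ) : Prop :=
  ((2 * j + 1 - c h) / (j * (j + 1)) - ε) * (N χ a b : ℝ) + (excess χ j a b : ℝ) / (j * (j + 1)) +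
    ((j : ℝ) ^ 2 + 1) / (2 * j * (j + 1)) * (Noff χ a b : ℝ) ≤ (Nd χ a b : ℝ)

/-- every interval `(a, b]` of length at least `T ^ η` in `[T - T ^ (η + κ), T + T ^ (η + κ)]` has the property `P a b` -/
def Around (η κ T : ℝ) (P : ℝ → ℝ → Prop) : Prop :=
  ∀ a b : ℝ, T - T ^ (η + κ) ≤ a → b ≤ T + T ^ (η + κ) → T ^ η ≤ b - a → P a b

section

variable {q : ℕ} [NeZero q] (χ : DirichletCharacter ℂ q) (a b : ℝ)

theorem zeros_eq : zeros χ a b = H370.zset (DirichletCharacter.LFunction χ) a b := by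
  ext s
  simp only [zeros, H370.zset, Set.mem_ofPred_eq]
  tauto

/-- the sets of zeros that are counted are finite -/
theorem zeros_finite (hχ : χ.IsPrimitive) (h : 0 < a) : (zeros χ a b).Finite := by
  rw [zeros_eq]
  exact H370.zset_finite' (H370.good_dirichlet χ hχ) a b h

theorem N_eq : N χ a b = H370.NN (DirichletCharacter.LFunction χ) a b := by
  unfold N H370.NN
  rw [zeros_eq]
  rfl

theorem Nd_eq : Nd χ a b = H370.Nd (DirichletCharacter.LFunction χ) a b := by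
  unfold Nd H370.Nd
  rw [zeros_eq]

theorem SJ_eq (j : ℕ) : (excess χ j a b : ℝ) + ((j : ℝ) ^ 2 + 1) / 2 * (Noff χ a b : ℝ) =
    Pool.Agent.Y771.DJ.SJ j (DirichletCharacter.LFunction χ) a b := by
  unfold excess Noff Pool.Agent.Y771.DJ.SJ Pool.Agent.Y771.DJ.EXJ W69DZ.NF
  rw [zeros_eq]
  rfl

end

lemma bound_of {q : ℕ} [NeZero q] (χ : DirichletCharacter ℂ q) {j : ℕ} (hj : 1 ≤ j) {h ε a b : ℝ} (hε : 0 < ε)
    (hb : (2 * j + 1 - H295SI.cc h - ε) * (H370.NN (DirichletCharacter.LFunction χ) a b : ℝ) +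
      Pool.Agent.Y771.DJ.SJ j (DirichletCharacter.LFunction χ) a b ≤
        (j : ℝ) * (j + 1) * (H370.Nd (DirichletCharacter.LFunction χ) a b : ℝ)) :
    Bound χ j h ε a b := by
  have hj1 : (1 : ℝ) ≤ j := by exact_mod_cast hj
  have hjj : 0 < (j : ℝ) * (j + 1) := by positivity
  have hc : H295SI.cc h = c h := rfl
  rw [hc, ← N_eq, ← Nd_eq, ← SJ_eq] at hb
  unfold Bound
  refine le_of_mul_le_mul_left ?_ hjj
  refine le_trans (le_of_eq ?_) (le_trans (sub_le_self _ ?_) hb) (b := (2 * j + 1 - c h - ε) *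
    (N χ a b : ℝ) + ((excess χ j a b : ℝ) + ((j : ℝ) ^ 2 + 1) / 2 * (Noff χ a b : ℝ)) -
    ε * ((j : ℝ) * (j + 1) - 1) * (N χ a b : ℝ))
  · field_simp
    ring
  · have : 0 ≤ (j : ℝ) * (j + 1) - 1 := by nlinarith
    positivity

theorem typical (q : ℕ) [NeZero q] (χ : DirichletCharacter ℂ q) (hχ : χ.IsPrimitive) (j : ℕ) (η ε : ℝ) (hj : 1 ≤ j)
    (h0 : 0 < η) (h1 : η < 1) (hε : 0 < ε) :
    ∃ s κ : ℝ, 0 < s ∧ s < 1 ∧ 0 < κ ∧ Typical s (fun T => Around η κ T (Bound χ j ((1 + η) / 2) ε)) := by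
  obtain ⟨s, κ, hs0, hs1, hκ, -, h⟩ := Run7.h613.NG.distinct_typical j hj (H370.good_dirichlet χ hχ)
    (Pool.Agent.Y796.PA.bz_prim χ hχ) h0 h1 hε
  refine ⟨s, κ, hs0, hs1, hκ, h.mono fun T hT a b ha hb hab => ?_⟩
  exact bound_of χ hj hε (hT a b ha hb hab).2

/-- the last two terms are not negative -/
lemma drop {q : ℕ} [NeZero q] (χ : DirichletCharacter ℂ q) (j : ℕ) (h ε a b : ℝ) (hb : Bound χ j h ε a b) :
    ((2 * j + 1 - c h) / (j * (j + 1)) - ε) * (N χ a b : ℝ) ≤ (Nd χ a b : ℝ) := by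
  unfold Bound at hb
  have e1 : (0 : ℝ) ≤ (excess χ j a b : ℝ) / (j * (j + 1)) := by positivity
  have e2 : (0 : ℝ) ≤ ((j : ℝ) ^ 2 + 1) / (2 * j * (j + 1)) * (Noff χ a b : ℝ) := by positivity
  linarith

theorem typical47 (q : ℕ) [NeZero q] (χ : DirichletCharacter ℂ q) (hχ : χ.IsPrimitive) (η : ℝ) (h0 : 0 < η) (h1 : η < 1) :
    ∃ s κ : ℝ, 0 < s ∧ s < 1 ∧ 0 < κ ∧
      Typical s (fun T => Around η κ T (fun a b => 17 / 36 * (N χ a b : ℝ) ≤ (Nd χ a b : ℝ))) := by
  have hx : c ((1 + η) / 2) ≤ 1 / ((1 + η) / 2) + (1 + η) / 2 / 3 :=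
    H295SI.cc_le _ (by linarith) (by linarith)
  have hx1 : 1 / ((1 + η) / 2) + (1 + η) / 2 / 3 < 13 / 6 := by
    have e : 1 / ((1 + η) / 2) = 2 / (1 + η) := by field_simp
    rw [e, ← lt_sub_iff_add_lt, div_lt_iff₀ (by linarith)]
    nlinarith
  set ε : ℝ := (13 / 6 - c ((1 + η) / 2)) / 6 with hε
  have hε0 : 0 < ε := by rw [hε]; linarith
  obtain ⟨s, κ, hs0, hs1, hκ, h⟩ := typical q χ hχ 2 η ε (by norm_num) h0 h1 hε0
  refine ⟨s, κ, hs0, hs1, hκ, h.mono fun T hT a b ha hb hab => ?_⟩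
  have h5 := drop _ _ _ _ _ _ (hT a b ha hb hab)
  have e : ((2 * ((2 : ℕ) : ℝ) + 1 - c ((1 + η) / 2)) / (((2 : ℕ) : ℝ) * (((2 : ℕ) : ℝ) + 1)) - ε) = 17 / 36 := by
    rw [hε]; push_cast; ring
  rw [e] at h5
  exact h5

/-- **Distinct zeros in EVERY short interval near typical numbers.** (1) The bound is typical, for every primitive character
and every `j`. (2) So is the bound `17/36`, for every `η > 0`; this holds for all the primitive characters of all moduli at
once near the values of generic linear forms, (3) and at the powers of almost every number. (4) A bound for the constant. -/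
theorem result :
    (∀ (q : ℕ) [NeZero q] (χ : DirichletCharacter ℂ q), χ.IsPrimitive → ∀ (j : ℕ) (η ε : ℝ), 1 ≤ j → 0 < η → η < 1 →
      0 < ε → ∃ s κ : ℝ, 0 < s ∧ s < 1 ∧ 0 < κ ∧ Typical s (fun T => Around η κ T (Bound χ j ((1 + η) / 2) ε))) ∧
    (∀ U : Set ℝ, U.Countable →
      (∀ (k : ℕ) (J : Type) (v : J → Fin k → ℝ), 1 ≤ k → Fam v 0 → ∀ᵐ α : Fin k → ℝ,
        ∀ (q : ℕ) [NeZero q] (χ : DirichletCharacter ℂ q), χ.IsPrimitive → ∀ η ∈ U, 0 < η → η < 1 →
          ∃ κ : ℝ, 0 < κ ∧ ∀ w : ℝ, {j | ¬ ∀ T : ℝ, 0 < T → |T - ∑ l, α l * v j l| ≤ w →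
            Around η κ T (fun a b => 17 / 36 * (N χ a b : ℝ) ≤ (Nd χ a b : ℝ))}.Finite) ∧
      (∀ (ν : ℕ → ℝ) (β : ℝ), Fast ν → 0 < β → ∀ᵐ x : ℝ, 1 < x →
        ∀ (q : ℕ) [NeZero q] (χ : DirichletCharacter ℂ q), χ.IsPrimitive → ∀ η ∈ U, 0 < η → η < 1 →
          ∃ κ : ℝ, 0 < κ ∧ ∀ᶠ n : ℕ in atTop,
            Around η κ (β * x ^ ν n) (fun a b => 17 / 36 * (N χ a b : ℝ) ≤ (Nd χ a b : ℝ)))) ∧
    (∀ η : ℝ, 0 < η → η < 1 → c ((1 + η) / 2) ≤ 2 / (1 + η) + (1 + η) / 6) := by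
  refine ⟨typical, fun U hU => ?_, fun η h0 h1 => ?_⟩
  · have key := Run7.h613.NG.chars_all
      (P := fun q χ η _ κ T => ∀ h : NeZero q, Around η κ T
        (fun a b => 17 / 36 * (@N q h χ a b : ℝ) ≤ (@Nd q h χ a b : ℝ))) (R := fun _ => 0)
      (fun q χ η r r' κ T hr hP => hP)
      (fun q hq χ hχ η ε h0 h1 hε => by
        obtain ⟨s, κ, k1, k2, k3, k4⟩ := typical47 q χ hχ η h0 h1
        exact ⟨s, κ, k1, k2, k3, k4.mono fun T hT _ => hT⟩) U hU
    obtain ⟨A1, A2, -⟩ := key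
    refine ⟨fun k J v hk hv => ?_, fun ν β hν hβ => ?_⟩
    · filter_upwards [A1 k J v hk hv] with α hα q hq χ hχ η hη h0 h1
      obtain ⟨κ, hκ, h⟩ := hα q χ hχ η hη h0 h1 1 one_pos
      refine ⟨κ, hκ, fun w => (h w).subset ?_⟩
      intro j hj hcon
      exact hj fun T hT hTw => hcon T hT hTw hq
    · filter_upwards [A2 ν β hν hβ] with x hx hx1 q hq χ hχ η hη h0 h1
      obtain ⟨κ, hκ, h⟩ := hx hx1 q χ hχ η hη h0 h1 1 one_pos
      refine ⟨κ, hκ, ?_⟩
      filter_upwards [h] with n hn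
      exact hn hq
  · have hx : c ((1 + η) / 2) ≤ 1 / ((1 + η) / 2) + (1 + η) / 2 / 3 := H295SI.cc_le _ (by linarith) (by linarith)
    have e : 1 / ((1 + η) / 2) = 2 / (1 + η) := by field_simp
    rw [e] at hx
    linarith

end Pool.Agent.Results.MP_f259ea_nt.EveryIntervalTypical
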