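import Pool.Agent.Run7.h527.LP.D
import Pool.Agent.Results.MP_f259ea_nt.EveryIntervalTypical

/-!
# Distinct zeros of Dirichlet L-functions in EVERY short interval near aliquot sums, cototients and arithmetic derivatives

No hypothesis is assumed. Let `g(m)` be the sum of the proper divisors of `m`, the cototient `m - φ(m)`, the arithmetic
derivative `m'` (with `p' = 1` for primes and Leibniz' rule), or any positive combination `α m + β f(m)` with `f = σ`, `φ` or
the arithmetic derivative. Let `G (v + 1) - G v ≥ a > 0` and `G v ≤ C v`, for example `G v = α v`. Let `χ` be a primitive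
Dirichlet character, `j ≥ 1`, `0 < η < 1` and `ε > 0`. There is `κ > 0` (independent of `g`, `G`) such that:

(1) for all `m ≤ N` which have a prime factor `p ≥ m^τ`, `τ ≥ 1 - η`, that does not divide `m / p ≥ 2`, and for which `g(m)` is
not smaller than `m^(1 - σ)`, but at most `N / (log N)^U` of them (for every `U`), for ALL real `T` with
`|T - G (g m)| ≤ g(m)^(η + κ)` EVERY interval `(a, b]` of length at least `2 T^η` in `[T - T^(η + κ), T + T^(η + κ)]` satisfies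
`N_d ≥ ((2 j + 1 - c) / (j (j + 1)) - ε) N + (excess multiplicity) / (j (j + 1)) + (j² + 1) / (2 j (j + 1)) N_off`,
`c = c((1 + η) / 2)`; and there (for some `κ > 0`) more than `17/36` of the zeros are distinct.

(2) For every `ε' > 0` there is `η₀ < 1` such that for `η₀ < η < 1` this holds for ALL `m ≤ N` but `ε' N`.

Proof. Write `m = k p`. Then `g(m) = A p + B` with integers `A`, `B` which depend on `k` only. By the theorem
`EveryIntervalTypical` of this page (helper613) the bound holds for all intervals around `t`, if the integral part of `t` is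
outside a thin set. If it fails somewhere around a number near `G (g m)`, it fails around all the `t` of an interval of length
`g(m)^(η + κ / 2)`. For given `k` the numbers `G (g (k p))` have distances at least `a A`, and `A` is less than this length, so
disjoint parts of the exceptional set belong to different `p` (the tool `Run7/h527/LP`). For small `τ` all but `ε' N` integers
have a prime factor `p ≥ m^τ` of this kind.
-/

set_option autoImplicit false

open Filter Topology MeasureTheory Finset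

namespace Pool.Agent.Results.MP_f259ea_nt.LargePrimeValues

open Pool.Agent.N733.TG (Expanding expanding_pow)
open Pool.Agent.Results.MP_f259ea_nt.EveryIntervalTypical (N Nd Bound typical typical47)
open Run7.h527.LP (Lin One Big AroundC BadA around_windows of_logThin nearly_all lin_aliquot lin_cototient lin_deriv lin_sig
  lin_tot lin_der big_aliquot big_cototient big_deriv big_comb)
open Run7.h527.TP (aliquot cototient deriv sig comb density)

/-- For all `g` and `G` and all `m` with a large prime factor and a big value, but few of them, and, if `η` is near `1`, for all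
`m` but `ε' N`, all the intervals `(a, b]` of length at least `2 T ^ η` in `[T - T ^ (η + κ), T + T ^ (η + κ)]`, `T` any number
with `|T - G (g m)| ≤ (g m) ^ (η + κ)`, have the property `P a b`. -/
def NearValues (η κ : ℝ) (P : ℝ → ℝ → Prop) : Prop :=
  ∀ g : ℕ → ℕ, Lin g → ∀ G : ℕ → ℝ, Expanding G 1 →
    (∀ τ : ℝ, 1 - η ≤ τ → τ ≤ 1 → ∃ σ : ℝ, 0 < σ ∧ ∀ U : ℕ, ∃ N₀ : ℕ, ∀ N : ℕ, N₀ ≤ N →
      ({m : ℕ | 1 ≤ m ∧ m ≤ N ∧ One τ m ∧ (m : ℝ) ^ (1 - σ) ≤ g m ∧
        ¬ ∀ T : ℝ, |T - G (g m)| ≤ (g m : ℝ) ^ (η + κ) → AroundC 2 η κ T P}.ncard : ℝ) ≤ N / Real.log N ^ U)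

/-- the same for all `m` but `ε N` -/
def NearlyAllValues (η κ ε : ℝ) (P : ℝ → ℝ → Prop) : Prop :=
  ∀ g : ℕ → ℕ, Lin g → Big g → ∀ G : ℕ → ℝ, Expanding G 1 → ∃ N₀ : ℕ, ∀ N : ℕ, N₀ ≤ N →
    ({m : ℕ | 1 ≤ m ∧ m ≤ N ∧
      ¬ ∀ T : ℝ, |T - G (g m)| ≤ (g m : ℝ) ^ (η + κ) → AroundC 2 η κ T P}.ncard : ℝ) ≤ ε * N

/-- from typical numbers to the values -/
theorem main {η : ℝ} (h0 : 0 < η) (h1 : η < 1) {P : ℝ → ℝ → Prop}
    (h : ∃ s κ : ℝ, 0 < s ∧ s < 1 ∧ 0 < κ ∧ Run7.h613.NG.Typical s (fun T => EveryIntervalTypical.Around η κ T P)) :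
    ∃ κ : ℝ, 0 < κ ∧ NearValues η κ P ∧ ∀ ε τ : ℝ, 0 < ε → 0 < τ → 1 - τ / 2 ≤ η → (∃ N₀ : ℕ, ∀ N : ℕ, N₀ ≤ N →
      ({m : ℕ | 1 ≤ m ∧ m ≤ N ∧ ¬ Run7.h527.TP.Two τ m}.ncard : ℝ) ≤ ε / 3 * N) → τ ≤ 1 → NearlyAllValues η κ ε P := by
  obtain ⟨s, κ, hs0, hs1, hκ, ht⟩ := h
  have ht' : Run7.h613.NG.Typical s (fun T => AroundC 1 η κ T P) := by
    obtain ⟨S, T₁, a1, a2⟩ := ht
    refine ⟨S, T₁, a1, fun T hT hTS a b h3 h4 h5 => ?_⟩
    rw [one_mul] at h5
    exact a2 T hT hTS a b h3 h4 h5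
  obtain ⟨κ', hκ', hw⟩ := around_windows hs0 hs1 h0 h1 hκ ht'
  refine ⟨κ', hκ', fun g hg G hG τ hτ hτ1 => ?_, fun ε τ hε hτ0 hτη hden hτ1 g hg hbig G hG => ?_⟩
  · obtain ⟨σ, hσ, hL⟩ := hw g hg G hG τ hτ hτ1
    exact ⟨σ, hσ, fun U => of_logThin hL U⟩
  · obtain ⟨σ, hσ, hL⟩ := hw g hg G hG (τ / 2) (by linarith) (by linarith)
    exact nearly_all hτ0 hε hσ hden hbig (fun m => g m ∈ BadA η κ' P G) hL

/-- **Distinct zeros in EVERY short interval near the values of functions which are linear in a large prime factor.** (1) For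
every primitive character, `j ≥ 1`, `0 < η < 1` and `ε > 0` there is `κ > 0` such that the bound with the parameters
`j`, `(1 + η) / 2`, `ε` holds near the values; for some `κ > 0` more than `17/36` of the zeros are distinct there. (2) For all
`ε' > 0` there is `η₀ < 1` such that the same holds, for `η₀ < η < 1`, near the values at all `m ≤ N` but `ε' N`. (3) The sum of
the proper divisors, the cototient and the arithmetic derivative are examples of `g`; so are their positive combinations with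
the identity, for (2) if `α ≥ 1` and `β ≥ 0`. -/
theorem result :
    (∀ (q : ℕ) [NeZero q] (χ : DirichletCharacter ℂ q), χ.IsPrimitive → ∀ η : ℝ, 0 < η → η < 1 →
      (∀ (j : ℕ) (ε : ℝ), 1 ≤ j → 0 < ε → ∃ κ : ℝ, 0 < κ ∧ NearValues η κ (Bound χ j ((1 + η) / 2) ε)) ∧
      ∃ κ : ℝ, 0 < κ ∧ NearValues η κ (fun a b => 17 / 36 * (N χ a b : ℝ) ≤ (Nd χ a b : ℝ))) ∧
    (∀ ε' : ℝ, 0 < ε' → ∃ η₀ : ℝ, η₀ < 1 ∧ ∀ (q : ℕ) [NeZero q] (χ : DirichletCharacter ℂ q), χ.IsPrimitive →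
      ∀ η : ℝ, 0 < η → η₀ < η → η < 1 → ∀ (j : ℕ) (ε : ℝ), 1 ≤ j → 0 < ε →
        ∃ κ : ℝ, 0 < κ ∧ NearlyAllValues η κ ε' (Bound χ j ((1 + η) / 2) ε)) ∧
    ((Lin aliquot ∧ Big aliquot) ∧ (Lin cototient ∧ Big cototient) ∧ (Lin deriv ∧ Big deriv) ∧
      (∀ α β : ℤ, (∀ m : ℕ, 2 ≤ m → 0 < α * m + β * sig m) → Lin (comb α β sig)) ∧
      (∀ α β : ℤ, (∀ m : ℕ, 2 ≤ m → 0 < α * m + β * Nat.totient m) → Lin (comb α β Nat.totient)) ∧
      (∀ α β : ℤ, (∀ m : ℕ, 2 ≤ m → 0 < α * m + β * deriv m) → Lin (comb α β deriv)) ∧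
      ∀ α β : ℤ, 1 ≤ α → 0 ≤ β → ∀ f : ℕ → ℕ, Big (comb α β f)) ∧
    ∀ α : ℝ, 0 < α → Expanding (fun v => α * (v : ℝ) ^ (1 : ℝ)) 1 := by
  refine ⟨fun q hq χ hχ η h0 h1 => ⟨fun j ε hj hε => ?_, ?_⟩, fun ε' hε' => ?_,
    ⟨⟨lin_aliquot, big_aliquot⟩, ⟨lin_cototient, big_cototient⟩, ⟨lin_deriv, big_deriv⟩, fun α β h => lin_sig h,
      fun α β h => lin_tot h, fun α β h => lin_der h, fun α β hα hβ f => big_comb α β hα hβ f⟩,
    fun α hα => expanding_pow hα le_rfl⟩
  · obtain ⟨κ, hκ, h, -⟩ := main h0 h1 (typical q χ hχ j η ε hj h0 h1 hε)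
    exact ⟨κ, hκ, h⟩
  · obtain ⟨κ, hκ, h, -⟩ := main h0 h1 (typical47 q χ hχ η h0 h1)
    exact ⟨κ, hκ, h⟩
  · obtain ⟨τ, hτ0, hτ1, hden⟩ := density (ε' / 3) (by positivity)
    refine ⟨1 - τ / 2, by linarith, fun q hq χ hχ η h0 hη h1 j ε hj hε => ?_⟩
    obtain ⟨κ, hκ, -, h⟩ := main h0 h1 (typical q χ hχ j η ε hj h0 h1 hε)
    exact ⟨κ, hκ, h ε' τ hε' hτ0 hη.le hden hτ1⟩

end Pool.Agent.Results.MP_f259ea_nt.LargePrimeValues
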