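import Pool.Agent.Run7.h833.SG.H

/-!
# MP_f259ea_nt: the zeros lost to multiplicity and the growth of one limit function

Let `χ` be a primitive Dirichlet character modulo `q > 1`, real or complex, and let `k > 0` be such that
`L(1/2 + i t, χ)` has no zero with `|t| ≤ k` (there is such a `k` if `L(1/2, χ) ≠ 0`).  We consider the zeros of
`F(s) = L(s, χ) L(s, χ⁻¹)`.  For `a > 0` let `W a` be Weil's quadratic form of `F` on the functions supported in
`[-a, a]`: the Gamma factor, the conductor `q` and the prime powers up to `exp (2 a)`; no zero enters.  Relative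
to the mass of the transform on the window `|t| ≤ k` its minimum `low a` is attained, and there is one entire
function `E a`, with all zeros simple and on the critical line, such that the transforms of the minimisers are the
products of `E a` with the polynomials of degree less than `d a`.

* The Riemann hypothesis for `L(s, χ)` holds if and only if `low a → 0`; it holds and all zeros of `F` are simple
  (those of `L(s, χ)` are simple and none is a zero of `L(s, χ⁻¹)`) if and only if, moreover,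
  `E a (1/2 + x) / E a (1/2) → c x = |Λ(1/2 + x, χ) / Λ(1/2, χ)|²` for one `x > 0`.
* If the Riemann hypothesis for `L(s, χ)` holds then `g x = lim E a (1/2 + x) / E a (1/2)` exists and
  `1 < g x ≤ c x` for `x > 0`; equality holds for one `x` if and only if all zeros of `F` are simple.
* Let `N T` and `Nd T` be the numbers of all and of the distinct zeros of `F` with ordinate in `(T, 2 T]`.
  Then `(N T - Nd T) log (5/4) ≤ log (c T) - log (g T)`; for `0 < θ < 2` one has `N T - Nd T ≪ T^θ` if and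
  only if `log (c x) - log (g x) ≪ x^θ`; and `Nd T / N T → 1` if and only if `log (g x) / log (c x) → 1`.
  The number of the zeros of `L(s, χ)` lost to multiplicity is at most `N T - Nd T`.
-/

set_option autoImplicit false

namespace Pool.Agent.Results.MP_f259ea_nt.LostZerosAndGrowth

open Complex MeasureTheory Filter Topology
open Pool.Agent.Run7.h833.SG.T (M Ground low)

section

variable {q : ℕ} [NeZero q] (χ : DirichletCharacter ℂ q)

/-- The function `F(s) = L(s, χ) L(s, χ⁻¹)`. -/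
noncomputable def F (s : ℂ) : ℂ := χ.LFunction s * χ⁻¹.LFunction s

/-- The zeros of `G` in the critical strip with ordinate in `(T₁, T₂]`. -/
def zeros (G : ℂ → ℂ) (T₁ T₂ : ℝ) : Set ℂ := {s : ℂ | G s = 0 ∧ 0 < s.re ∧ s.re < 1 ∧ T₁ < s.im ∧ s.im ≤ T₂}

/-- The number of the zeros of `G` with ordinate in `(T, 2 T]`, counted with multiplicity. -/
noncomputable def N (G : ℂ → ℂ) (T : ℝ) : ℕ := ∑ᶠ s ∈ zeros G T (2 * T), analyticOrderNatAt G s

/-- The number of the distinct zeros of `G` with ordinate in `(T, 2 T]`. -/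
noncomputable def Nd (G : ℂ → ℂ) (T : ℝ) : ℕ := (zeros G T (2 * T)).ncard

/-- The Riemann hypothesis for `L(s, χ)`. -/
def GRH : Prop := ∀ s : ℂ, χ.LFunction s = 0 → 0 < s.re → s.re < 1 → s.re = 1 / 2

/-- All zeros of `F` in the critical strip are simple: those of `L(s, χ)` are simple, and none is a zero of
`L(s, χ⁻¹)`. -/
def AllSimple : Prop := ∀ s : ℂ, F χ s = 0 → 0 < s.re → s.re < 1 → deriv (F χ) s ≠ 0

/-- The completed L-function `Λ(s, χ)` for `Re s > 0`. -/
noncomputable def Lam (s : ℂ) : ℂ := ((q : ℝ) : ℂ) ^ (s / 2) * χ.gammaFactor s * χ.LFunction s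

/-- The number `|Λ(1/2 + x, χ) / Λ(1/2, χ)|²` for `x > 0`. -/
noncomputable def c (x : ℝ) : ℝ := ‖Lam χ (((1 / 2 + x : ℝ)) : ℂ)‖ ^ 2 / ‖Lam χ (((1 / 2 : ℝ)) : ℂ)‖ ^ 2

/-- Weil's quadratic form of `F` for functions supported in `[-a, a]`: the Gamma factor, the conductor and
the prime powers `n ≤ exp (2 a)`. -/
noncomputable def W (a : ℝ) (f : ℝ → ℂ) : ℝ :=
  1 / (2 * Real.pi) * (∫ t : ℝ, 2 * (Real.log q + 2 * (logDeriv χ.gammaFactor (1 / 2 + t * I)).re) *
      ‖M f (1 / 2 + t * I)‖ ^ 2) -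
    2 * (∑ n ∈ Finset.Icc 1 ⌊Real.exp (2 * a)⌋₊, ArithmeticFunction.vonMangoldt n / Real.sqrt n * (χ n + χ⁻¹ n) *
      ∫ x : ℝ, f (x + Real.log n) * (starRingEnd ℂ) (f x)).re

end

open Y23.G Run7.h833.SG Pool.Agent.TH839.NA Pool.Agent.W355.UN Pool.Agent.W355.LJ

lemma deriv_iff {f : ℂ → ℂ} {s : ℂ} (hf : AnalyticAt ℂ f s) (h0 : f s = 0) :
    deriv f s ≠ 0 ↔ ¬ (2 : ℕ∞) ≤ analyticOrderAt f s := by
  rw [not_iff_not, show (2 : ℕ∞) = ((2 : ℕ) : ℕ∞) by norm_num, natCast_le_analyticOrderAt_iff_iteratedDeriv_eq_zero hf]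
  constructor
  · intro h i hi
    interval_cases i
    · rw [iteratedDeriv_zero]; exact h0
    · rw [iteratedDeriv_one]; exact h
  · intro h
    have := h 1 (by norm_num)
    rwa [iteratedDeriv_one] at this

/-- **Main theorem.** -/
theorem result (q : ℕ) [NeZero q] (χ : DirichletCharacter ℂ q) (hq : 1 < q) (hχ : χ.IsPrimitive)
    (k : ℝ) (hk : 0 < k) (hno : ∀ t : ℝ, |t| ≤ k → χ.LFunction (1 / 2 + t * I) ≠ 0) :
    ∃ (E : ℝ → ℂ → ℂ) (d : ℝ → ℕ), Ground (W χ) k E d ∧
      (GRH χ ↔ Tendsto (low (W χ) k) atTop (𝓝 0)) ∧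
      (∀ x : ℝ, 0 < x → (GRH χ ∧ AllSimple χ ↔ Tendsto (low (W χ) k) atTop (𝓝 0) ∧
        Tendsto (fun a => E a (1 / 2 + x) / E a (1 / 2)) atTop (𝓝 (c χ x : ℂ)))) ∧
      (GRH χ → ∃ g : ℝ → ℝ,
        (∀ x : ℝ, Tendsto (fun a => E a (1 / 2 + x) / E a (1 / 2)) atTop (𝓝 (g x : ℂ))) ∧
        (∀ x : ℝ, 0 < x → 1 < g x ∧ g x ≤ c χ x ∧ (g x = c χ x ↔ AllSimple χ)) ∧
        (∀ T : ℝ, 0 < T → ((N (F χ) T : ℝ) - Nd (F χ) T) * Real.log (5 / 4) ≤ Real.log (c χ T) - Real.log (g T)) ∧
        (∀ θ : ℝ, 0 < θ → θ < 2 → ((∃ C : ℝ, ∀ T : ℝ, 1 ≤ T → (N (F χ) T : ℝ) - Nd (F χ) T ≤ C * T ^ θ) ↔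
          ∃ C : ℝ, ∀ x : ℝ, 1 ≤ x → Real.log (c χ x) - Real.log (g x) ≤ C * x ^ θ)) ∧
        (Tendsto (fun T => (Nd (F χ) T : ℝ) / N (F χ) T) atTop (𝓝 1) ↔
          Tendsto (fun x => Real.log (g x) / Real.log (c χ x)) atTop (𝓝 1)) ∧
        ∀ T : ℝ, 1 ≤ T → (N χ.LFunction T : ℝ) - Nd χ.LFunction T ≤ (N (F χ) T : ℝ) - Nd (F χ) T) := by
  classical
  obtain ⟨X, hraw, hcj, hreal, hz, hinv, hord⟩ := DL.pair_data χ hq hχ
  have hpar : 0 ≤ ((parD χ : ℂ)).re := by
    rw [Complex.ofReal_re]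
    rcases DL.parD_cases χ with h | h <;> rw [h] <;> norm_num
  have hN0 : (0 : ℝ) < q := by exact_mod_cast (by omega : 0 < q)
  have hstr : ∀ j : Fin (1 + 1), (Fin.append (fun _ : Fin 1 => (parD χ : ℂ)) (fun _ : Fin 1 => (parD χ : ℂ))) j =
      (parD χ : ℂ) := by
    intro j
    refine Fin.addCases (fun i => ?_) (fun i => ?_) j
    · rw [Fin.append_left]
    · rw [Fin.append_right]
  let L : LFun := ⟨1 + 1, 0 + 0, (q : ℝ) * q, _, _, _, X, hraw, fun j => by rw [hstr]; linarith⟩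
  let K : CA.Win := ⟨k, hk⟩
  have hhalf : ∀ t : ℝ, (1 / 2 + (t : ℂ) * I).re = 1 / 2 := fun t => by simp
  have hconjh : ∀ t : ℝ, (starRingEnd ℂ) (1 / 2 + (t : ℂ) * I) = 1 / 2 + ((-t : ℝ) : ℂ) * I := by
    intro t
    apply Complex.ext <;> simp
  have hnoF : ∀ t : ℝ, |t| ≤ k → X (1 / 2 + t * I) ≠ 0 := by
    intro t ht h0
    obtain ⟨_, _, h1⟩ := (hz _).1 h0
    rcases mul_eq_zero.1 h1 with h2 | h2
    · exact hno t ht h2
    · rw [hinv _ (by rw [hhalf]; norm_num) (by rw [hhalf]; norm_num), hconjh] at h2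
      exact hno (-t) (by rw [abs_neg]; exact ht) h2
  have hno' : CA.NoZ K L := fun t ht => hnoF t ht
  have hX12 : X (1 / 2) ≠ 0 := by
    have h1 := hnoF 0 (by rw [abs_zero]; exact hk.le)
    rwa [Complex.ofReal_zero, zero_mul, add_zero] at h1
  have hfe : ∀ s, L.X (1 - s) = L.X s := by
    obtain ⟨ε, _, h2⟩ := hraw.fe
    have h3 : ∀ s, X s = ε * X (1 - s) := by
      intro s
      rw [h2 s, ← hcj, map_sub, map_one, Complex.conj_conj]
    have h4 : ε = 1 := by
      have h5 := h3 (1 / 2)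
      rw [show (1 : ℂ) - 1 / 2 = 1 / 2 by norm_num] at h5
      have h6 : (ε - 1) * X (1 / 2) = 0 := by linear_combination -h5
      rcases mul_eq_zero.1 h6 with h | h
      · linear_combination h
      · exact absurd h hX12
    intro s
    show X (1 - s) = X s
    rw [h3 s, h4, one_mul]
  -- Weil's form
  have hgdiff : ∀ t : ℝ, DifferentiableAt ℂ χ.gammaFactor (1 / 2 + t * I) := by
    intro t
    have hs : 0 < (1 / 2 + (t : ℂ) * I).re := by rw [hhalf]; norm_num
    have e : χ.gammaFactor = fun z => Gammaℝ (z + (parD χ : ℂ)) := funext fun z => (DL.gamma_eq χ).symm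
    rw [e]
    have h2 : DifferentiableAt ℂ (fun z : ℂ => (Gammaℝ (z + (parD χ : ℂ)))⁻¹) (1 / 2 + t * I) :=
      (differentiable_Gammaℝ_inv.comp (by fun_prop : Differentiable ℂ fun z : ℂ => z + (parD χ : ℂ))) _
    have h3 := h2.inv (inv_ne_zero (Complex.Gammaℝ_ne_zero_of_re_pos (DL.par_pos χ hs)))
    refine h3.congr_of_eventuallyEq (Eventually.of_forall fun z => ?_)
    simp
  have hW : ∀ a : ℝ, 0 < a → ∀ f, T.InDom a f → W χ a f = QQ (D := zd (L := L)) f := by
    intro a ha f hf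
    rw [weil (L := L) ha ((T.inDom_iff a f).1 hf)]
    have e3 : ∀ t : ℝ, 2 * (Real.log q + 2 * (logDeriv χ.gammaFactor (1 / 2 + t * I)).re) = (GD (L := L)) t := by
      intro t
      have h1 := arch (m := 1 + 1) (A := (q : ℝ) * q) (a' := Fin.append (fun _ : Fin 1 => (parD χ : ℂ))
        fun _ : Fin 1 => (parD χ : ℂ)) (fun j => by rw [hstr]; exact hpar) (γ := fun z => χ.gammaFactor z ^ 2)
        (fun z => by
          rw [Fin.prod_univ_add]
          simp only [Fin.append_left, Fin.append_right, Fin.prod_univ_one, DL.gamma_eq]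
          ring) t
      rw [logDeriv_fun_pow (hgdiff t) 2, Real.log_mul hN0.ne' hN0.ne'] at h1
      have h2 : (((2 : ℕ) : ℂ) * logDeriv χ.gammaFactor (1 / 2 + t * I)).re =
          2 * (logDeriv χ.gammaFactor (1 / 2 + t * I)).re := by
        simp
      rw [h2] at h1
      have h3 : (GD (L := L)) t = Real.log q + Real.log q + 2 * (2 * (logDeriv χ.gammaFactor (1 / 2 + t * I)).re) := by
        rw [← h1]
        rfl
      rw [h3]
      ring
    have e4 : ∀ n ∈ Finset.Icc 1 ⌊Real.exp (2 * a)⌋₊,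
        ((ArithmeticFunction.vonMangoldt n : ℝ) : ℂ) / ((Real.sqrt n : ℝ) : ℂ) * (χ (n : ZMod q) + χ⁻¹ (n : ZMod q)) *
          (∫ x : ℝ, f (x + Real.log n) * (starRingEnd ℂ) (f x)) =
        aL (L := L) n * ∫ x : ℝ, f (x + Real.log n) * (starRingEnd ℂ) (f x) := by
      intro n hn
      have hn1 := (Finset.mem_Icc.1 hn).1
      have hn0 : (0 : ℝ) < n := by exact_mod_cast hn1
      congr 1
      have e5 : aL (L := L) n = ((ArithmeticFunction.vonMangoldt n : ℝ) : ℂ) *
          ((χ (n : ZMod q) + χ⁻¹ (n : ZMod q)) * TH839.NA.pw (-(1 / 2)) n) := rfl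
      rw [e5]
      unfold TH839.NA.pw
      rw [Real.rpow_neg hn0.le, ← Real.sqrt_eq_rpow]
      push_cast
      ring
    have e6 : L.r = 0 := rfl
    unfold W
    rw [Finset.sum_congr rfl e4, e6]
    simp only [T.M_line, e3]
    push_cast
    ring
  obtain ⟨E, d, hG, hlim, hpt, hg⟩ := T.pack K L (W χ) hfe hcj hno' hW
  have hline : GRH χ ↔ T.OnLine L.X := by
    constructor
    · intro h s hs
      obtain ⟨h0, h1, h2⟩ := (hz s).1 hs
      rcases mul_eq_zero.1 h2 with h3 | h3
      · exact h s h3 h0 h1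
      · rw [hinv s h0 h1] at h3
        have h4 := h _ h3 (by rw [Complex.conj_re]; exact h0) (by rw [Complex.conj_re]; exact h1)
        rwa [Complex.conj_re] at h4
    · intro h s hs h0 h1
      exact h s ((hz s).2 ⟨h0, h1, by rw [hs, zero_mul]⟩)
  have hχ1 : χ ≠ 1 := by
    rintro rfl
    have h1 := hχ
    rw [DirichletCharacter.isPrimitive_def, DirichletCharacter.conductor_one] at h1
    omega
  have hχ2 : χ⁻¹ ≠ 1 := fun h => hχ1 (inv_eq_one.1 h)
  have hdF : ∀ s, AnalyticAt ℂ (F χ) s := fun s =>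
    ((DirichletCharacter.differentiable_LFunction hχ1).mul (DirichletCharacter.differentiable_LFunction hχ2)).analyticAt s
  have hsimple : AllSimple χ ↔ T.Simple L.X := by
    constructor
    · intro h s hs
      have h1 := (hz s).1 hs
      refine (deriv_iff (hraw.entire.analyticAt s) hs).2 ?_
      rw [hord s h1.1]
      exact (deriv_iff (hdF s) h1.2.2).1 (h s h1.2.2 h1.1 h1.2.1)
    · intro h s hs h0 h1
      have h2 := (hz s).2 ⟨h0, h1, hs⟩
      refine (deriv_iff (hdF s) hs).2 ?_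
      have h3 := (deriv_iff (hraw.entire.analyticAt s) h2).1 (h s h2)
      rw [hord s h0] at h3
      exact h3
  have hcc : ∀ x : ℝ, 0 < x → L.X (1 / 2 + x) / L.X (1 / 2) = (c χ x : ℂ) := by
    intro x hx
    have e1 : (1 / 2 + (x : ℂ)) = (((1 / 2 + x : ℝ)) : ℂ) := by push_cast; rfl
    have e2 : (1 / 2 : ℂ) = (((1 / 2 : ℝ)) : ℂ) := by push_cast; rfl
    show X (1 / 2 + x) / X (1 / 2) = _
    rw [e1, e2, hreal _ (by linarith), hreal _ (by norm_num)]
    unfold c Lam
    push_cast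
    rfl
  refine ⟨E, d, hG, by rw [hline]; exact hlim, fun x hx => ?_, fun hRH => ?_⟩
  · rw [hline, hsimple, ← hcc x hx]
    exact hpt x hx.ne'
  · obtain ⟨g, c', h1, h2, h3, hD, hm1⟩ := hg (hline.1 hRH)
    have hcx : ∀ x : ℝ, 0 < x → c' x = c χ x := by
      intro x hx
      have h4 := h2 x
      rw [hcc x hx] at h4
      exact_mod_cast h4.symm
    have hlineF : ∀ s : ℂ, 0 < s.re → s.re < 1 → 0 < s.im → F χ s = 0 → s.re = 1 / 2 :=
      fun s h4 h5 _ h6 => hline.1 hRH s ((hz s).2 ⟨h4, h5, h6⟩)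
    have hmult : ∀ t : ℝ, analyticOrderNatAt L.X (1 / 2 + t * I) = H370.mult (F χ) (1 / 2 + t * I) := by
      intro t
      unfold H370.mult analyticOrderNatAt
      show (analyticOrderAt X (1 / 2 + t * I)).toNat = _
      rw [hord _ (by rw [hhalf]; norm_num)]
      rfl
    have hzero : ∀ t : ℝ, L.X (1 / 2 + t * I) = 0 ↔ F χ (1 / 2 + t * I) = 0 := by
      intro t
      have h4 := hz (1 / 2 + t * I)
      rw [hhalf] at h4
      exact ⟨fun h => (h4.1 h).2.2, fun h => h4.2 ⟨by norm_num, by norm_num, h⟩⟩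
    have hzeq : ∀ (G : ℂ → ℂ) (A B : ℝ), zeros G A B = H370.zset G A B := by
      intro G A B
      ext s
      simp only [zeros, H370.zset, Set.mem_ofPred_eq]
      tauto
    have e1 : ∀ (G : ℂ → ℂ) T, N G T = H370.NN G T (2 * T) := by
      intro G T
      unfold N H370.NN
      rw [hzeq]
      rfl
    have e2 : ∀ (G : ℂ → ℂ) T, Nd G T = H370.Nd G T (2 * T) := by
      intro G T
      unfold Nd H370.Nd
      rw [hzeq]
    have hcnt : ∀ T : ℝ, 0 ≤ T → _ := fun T hT =>
      cnt_eq hD hlineF (fun t => by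
        show (0 < t ∧ L.X (1 / 2 + t * I) = 0) ↔ _
        rw [hzero]) (fun t _ => hmult t) hm1 (A := T) (B := 2 * T) hT
    have good1 := H370.good_dirichlet χ hχ
    have good2 := H370.good_dirichlet χ⁻¹ (DL.prim_inv χ hχ)
    have hfo : ∀ {G : ℂ → ℂ}, Differentiable ℂ G → (∃ s, G s ≠ 0) → ∀ s, 0 < s.im → analyticOrderAt G s ≠ ⊤ := by
      intro G hG hne s _ htop
      obtain ⟨z, hz⟩ := hne
      rw [analyticOrderAt_eq_top] at htop
      have hGa : AnalyticOnNhd ℂ G Set.univ := fun z _ => hG.analyticAt z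
      exact hz (hGa.eqOn_zero_of_preconnected_of_eventuallyEq_zero isPreconnected_univ (Set.mem_univ s) htop
        (Set.mem_univ z))
    have hNN : ∀ T : ℝ, 1 ≤ T → H370.NN (F χ) T (2 * T) = H370.NN χ.LFunction T (2 * T) +
        H370.NN χ⁻¹.LFunction T (2 * T) := fun T hT =>
      DL.NN_mul good1 good2 (hfo (DirichletCharacter.differentiable_LFunction hχ1)
        ⟨2, DirichletCharacter.LFunction_ne_zero_of_one_le_re χ (Or.inl hχ1) (by norm_num)⟩)
        (hfo (DirichletCharacter.differentiable_LFunction hχ2)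
        ⟨2, DirichletCharacter.LFunction_ne_zero_of_one_le_re χ⁻¹ (Or.inl hχ2) (by norm_num)⟩) hT
    obtain ⟨⟨C1, hC1, hup1⟩, b1, U1, hb1, hlo1⟩ := nn_bounds good1
    obtain ⟨⟨C2, hC2, hup2⟩, _, _, _, _⟩ := nn_bounds good2
    obtain ⟨f1, f2, f3, _, _⟩ := counts hD hm1 (n := fun T => (N (F χ) T : ℝ)) (d := fun T => (Nd (F χ) T : ℝ))
      (fun T hT => by
        show _ = ((N (F χ) T : ℕ) : ℝ)
        rw [(hcnt T hT).1, e1])
      (fun T hT => by
        show _ = ((N (F χ) T : ℕ) : ℝ) - ((Nd (F χ) T : ℕ) : ℝ)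
        rw [(hcnt T hT).2, e1, e2])
      ⟨C1 + C2, by linarith, fun T hT => by
        show ((N (F χ) T : ℕ) : ℝ) ≤ _
        rw [e1, hNN T hT, Nat.cast_add]
        have a1 := hup1 T hT
        have a2 := hup2 T hT
        calc _ ≤ C1 * T * (1 + Real.log T) + C2 * T * (1 + Real.log T) := add_le_add a1 a2
          _ = _ := by ring⟩
      ⟨b1, max U1 1, hb1, fun T hT => by
        show _ ≤ ((N (F χ) T : ℕ) : ℝ)
        rw [e1, hNN T ((le_max_right _ _).trans hT), Nat.cast_add]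
        have a1 := hlo1 T ((le_max_left _ _).trans hT)
        have a2 : (0 : ℝ) ≤ (H370.NN χ⁻¹.LFunction T (2 * T) : ℝ) := Nat.cast_nonneg _
        linarith⟩
    refine ⟨g, h1, fun x hx => ?_, fun T hT => ?_, fun θ h4 h5 => ?_, ?_, fun T hT => ?_⟩
    · rw [← hcx x hx, hsimple]
      exact h3 x hx.ne'
    · rw [← hcx T hT]
      exact f1 T hT
    · rw [f2 θ h4 h5]
      exact exists_congr fun C => forall_congr' fun x => imp_congr_right fun hx => by rw [hcx x (by linarith)]
    · rw [f3]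
      refine tendsto_congr' ?_
      filter_upwards [eventually_gt_atTop 0] with x hx
      rw [hcx x hx]
    · rw [e1, e1, e2, e2, hNN T hT, Nat.cast_add]
      have hfin1 := H370.zset_finite good1 T (2 * T) hT
      have hfin2 := H370.zset_finite good2 T (2 * T) hT
      have a1 : H370.Nd (F χ) T (2 * T) ≤ H370.Nd χ.LFunction T (2 * T) + H370.Nd χ⁻¹.LFunction T (2 * T) := by
        unfold H370.Nd
        have h6 : H370.zset (F χ) T (2 * T) = H370.zset χ.LFunction T (2 * T) ∪ H370.zset χ⁻¹.LFunction T (2 * T) := by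
          ext s
          simp only [H370.zset, Set.mem_ofPred_eq, Set.mem_union, F, mul_eq_zero]
          tauto
        rw [h6]
        exact Set.ncard_union_le _ _
      have a2 : H370.Nd χ⁻¹.LFunction T (2 * T) ≤ H370.NN χ⁻¹.LFunction T (2 * T) := by
        unfold H370.Nd H370.NN
        rw [finsum_mem_eq_finite_toFinset_sum _ hfin2, Set.ncard_eq_toFinset_card _ hfin2, Finset.card_eq_sum_ones]
        refine Finset.sum_le_sum fun s hs => ?_
        obtain ⟨b1, b2, b3, _, b5⟩ := (Set.Finite.mem_toFinset hfin2).1 hs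
        rw [Nat.one_le_iff_ne_zero]
        intro h0
        have h7 : analyticOrderAt χ⁻¹.LFunction s = 0 := by
          have h8 := hfo (DirichletCharacter.differentiable_LFunction hχ2)
            ⟨2, DirichletCharacter.LFunction_ne_zero_of_one_le_re χ⁻¹ (Or.inl hχ2) (by norm_num)⟩ s (by linarith)
          rw [← Nat.cast_analyticOrderNatAt h8]
          have h9 : analyticOrderNatAt χ⁻¹.LFunction s = 0 := h0
          rw [h9, Nat.cast_zero]
        exact (((DirichletCharacter.differentiable_LFunction hχ2).analyticAt s).analyticOrderAt_eq_zero.1 h7) b5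
      have a3 : (H370.Nd (F χ) T (2 * T) : ℝ) ≤ H370.Nd χ.LFunction T (2 * T) + H370.Nd χ⁻¹.LFunction T (2 * T) := by
        exact_mod_cast a1
      have a4 : (H370.Nd χ⁻¹.LFunction T (2 * T) : ℝ) ≤ H370.NN χ⁻¹.LFunction T (2 * T) := by exact_mod_cast a2
      linarith

end Pool.Agent.Results.MP_f259ea_nt.LostZerosAndGrowth
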