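import Pool.Agent.Run7.h278.LG.DirSd2

set_option autoImplicit false

/-!
# Distinct zeros of Dirichlet L-functions, and second differences of a sum over primes

Let `S` be a set of primitive characters modulo `q` which is closed under conjugation (`S = {χ, χ̄}`, or `q = 1` and the
Riemann zeta function) and `A(u) = e^(u/2) (∑_{n ≤ e^u} λ(n) (1/n - e^(-u)) - m u + c)`, `λ(n) = Λ(n) ∑_{χ ∈ S} χ(n)`, `m = 1`
if `S` contains the principal character and `m = 0` otherwise.  Let `W(h)` be the mean square of the second difference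
`A(u + 2h) - 2 A(u + h) + A(u)`.  This mean value exists in `[0, ∞]` for every `h > 0`, it is finite exactly if the
generalized Riemann hypothesis holds for `S`, and, with `T = π / (4h)`,
`W(h) ≥ (2|S|/3 + (32/π⁴) ∑_{χ ∈ S} (1 - N_d(T, 2T) / N(T, 2T)) - o(1)) h³ log(1/h)`.
We have `W(h) ≤ (2|S|/3 + o(1)) h³ log(1/h)` exactly if the generalized Riemann hypothesis holds for `S` and
`∑_{0 < t ≤ T} (m_t² - m_t) = o(T log T)`, where `m_t` is the total order of the `L(s, χ)`, `χ ∈ S`, at `1/2 + i t`; then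
`N_d(T, 2T) ≥ (1 - o(1)) N(T, 2T)` for every `χ ∈ S`.
-/

namespace Pool.Agent.Results.MP_f259ea_nt.SecondDifferences

open Filter Topology MeasureTheory Set DirichletCharacter
open scoped ENNReal

/-- the second difference -/
def Diff2 (f : ℝ → ℝ) (h u : ℝ) : ℝ := f (u + 2 * h) - 2 * f (u + h) + f u

/-- the Abel mean of the square of the second difference -/
noncomputable def meanSq (f : ℝ → ℝ) (h δ : ℝ) : ℝ≥0∞ := ∫⁻ u in Ioi (0 : ℝ), ENNReal.ofReal (δ * Real.exp (-δ * u) * Diff2 f h u ^ 2)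

section

variable {q : ℕ} [NeZero q] (χ : DirichletCharacter ℂ q)

/-- zeros of `L(s, χ)` with `0 < Re s < 1` and ordinate in `(T1, T2]` -/
def Zeros (T1 T2 : ℝ) : Set ℂ := {s : ℂ | 0 < s.re ∧ s.re < 1 ∧ T1 < s.im ∧ s.im ≤ T2 ∧ LFunction χ s = 0}

/-- their number, counted with multiplicity -/
noncomputable def N (T1 T2 : ℝ) : ℕ := ∑ᶠ s ∈ Zeros χ T1 T2, analyticOrderNatAt (LFunction χ) s

/-- the number of distinct ones -/
noncomputable def Nd (T1 T2 : ℝ) : ℕ := (Zeros χ T1 T2).ncard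

/-- the share of the repetitions among the zeros of `L(s, χ)` with ordinate in `(T, 2T]` -/
noncomputable def share (T : ℝ) : ℝ := 1 - (Nd χ T (2 * T) : ℝ) / N χ T (2 * T)

end

section

variable (q : ℕ) [NeZero q] (S : Finset (DirichletCharacter ℂ q))

/-- the coefficients -/
noncomputable def lam (n : ℕ) : ℝ := ArithmeticFunction.vonMangoldt n * (∑ χ ∈ S, χ (n : ZMod q)).re

open Classical in
/-- the order of the pole at `1` -/
noncomputable def pole : ℝ := if (1 : DirichletCharacter ℂ q) ∈ S then 1 else 0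

/-- the function `A` with the constant `c` -/
noncomputable def A (c u : ℝ) : ℝ :=
  Real.exp (u / 2) * (∑ n ∈ Finset.Icc 1 ⌊Real.exp u⌋₊, lam q S n * (1 / (n : ℝ) - Real.exp (-u)) - pole q S * u + c)

/-- `c` is the constant of `S` -/
def IsConst (c : ℝ) : Prop :=
  Tendsto (fun σ : ℝ => pole q S / (σ - 1) - ∑' n : ℕ, lam q S n / (n : ℝ) ^ σ) (𝓝[>] 1) (𝓝 (c - pole q S))

/-- the generalized Riemann hypothesis for the characters of `S` -/
def GRH : Prop := ∀ χ ∈ S, ∀ ρ : ℂ, 0 < ρ.re → ρ.re < 1 → LFunction χ ρ = 0 → ρ.re = 1 / 2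

/-- the total order of vanishing at `1/2 + i t` -/
noncomputable def total (t : ℝ) : ℝ := ∑ χ ∈ S, (analyticOrderNatAt (LFunction χ) (1 / 2 + t * Complex.I) : ℝ)

/-- the positive ordinates on the critical line -/
def Ords : Set ℝ := {t : ℝ | 0 < t ∧ ∃ χ ∈ S, LFunction χ (1 / 2 + t * Complex.I) = 0}

/-- the sum of `m_t² - m_t` over the ordinates `t ≤ T` -/
noncomputable def Multiple (T : ℝ) : ℝ := ∑' t : Ords q S, if (t : ℝ) ≤ T then total q S t ^ 2 - total q S t else 0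

end

open Run7.h278.LG Run7.h278

section

variable (q : ℕ) [NeZero q] (S : Finset (DirichletCharacter ℂ q))

omit [NeZero q] in
theorem lam_eq : lamD (fun χ : S => χ.1) (fun _ => 1) = lam q S := by
  funext n
  unfold lamD lam
  congr 2
  rw [← Finset.sum_coe_sort S]
  refine Finset.sum_congr rfl fun χ _ => ?_
  rw [Nat.cast_one, one_mul]

theorem m_eq : mD (fun χ : S => χ.1) (fun _ => 1) = pole q S := by
  classical
  unfold mD pole
  have h1 : ∀ χ : S, ((1 : ℕ) : ℝ) * (if χ.1 = 1 then (1 : ℝ) else 0) = if χ.1 = 1 then 1 else 0 := fun χ => by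
    rw [Nat.cast_one, one_mul]
  rw [Finset.sum_congr rfl fun χ _ => h1 χ, Finset.sum_coe_sort S (fun χ => if χ = 1 then (1 : ℝ) else 0)]
  simp

theorem ords_eq : TSD (fun χ : S => χ.1) = Ords q S := by
  ext t
  unfold TSD Ords
  simp only [Set.mem_ofPred_eq]
  refine and_congr_right fun _ => ?_
  constructor
  · rintro ⟨χ, h⟩
    exact ⟨χ.1, χ.2, h⟩
  · rintro ⟨χ, h1, h⟩
    exact ⟨⟨χ, h1⟩, h⟩

theorem total_eq : oD (fun χ : S => χ.1) (fun _ => 1) = total q S := by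
  funext t
  unfold oD total
  rw [← Finset.sum_coe_sort S]
  refine Finset.sum_congr rfl fun χ _ => ?_
  rw [Nat.cast_one, one_mul]

theorem grh_iff : GRHD (fun χ : S => χ.1) ↔ GRH q S := by
  unfold GRHD GRH
  constructor
  · intro h χ hχ
    exact h ⟨χ, hχ⟩
  · intro h χ
    exact h χ.1 χ.2

end

/-- **The theorem.** -/
theorem result (q : ℕ) [NeZero q] (S : Finset (DirichletCharacter ℂ q)) (hS : ∀ χ ∈ S, χ⁻¹ ∈ S) (hp : ∀ χ ∈ S, χ.IsPrimitive) :
    ∃ c : ℝ, IsConst q S c ∧ ∃ W : ℝ → ℝ≥0∞,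
      (∀ h : ℝ, 0 < h → Tendsto (meanSq (A q S c) h) (𝓝[>] 0) (𝓝 (W h)) ∧ (W h < ⊤ ↔ GRH q S) ∧
        (GRH q S → W h = ENNReal.ofReal (∑' t : Ords q S, 32 * Real.sin (t * h / 2) ^ 4 * (total q S t / (1 / 4 + (t : ℝ) ^ 2)) ^ 2))) ∧
      (∀ ε : ℝ, 0 < ε → ∀ᶠ h in 𝓝[>] (0 : ℝ), ENNReal.ofReal ((2 / 3 * S.card - ε) * (h ^ 3 * Real.log (1 / h))) ≤ W h) ∧
      (∀ ε : ℝ, 0 < ε → ∀ᶠ h in 𝓝[>] (0 : ℝ), ENNReal.ofReal ((2 / 3 * S.card + 32 / Real.pi ^ 4 * ∑ χ ∈ S, share χ (Real.pi / (4 * h)) - ε) *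
        (h ^ 3 * Real.log (1 / h))) ≤ W h) ∧
      ((∀ ε : ℝ, 0 < ε → ∀ᶠ h in 𝓝[>] (0 : ℝ), W h ≤ ENNReal.ofReal ((2 / 3 * S.card + ε) * (h ^ 3 * Real.log (1 / h)))) ↔
        GRH q S ∧ Tendsto (fun T => Multiple q S T / (T * Real.log T)) atTop (𝓝 0)) ∧
      ((∀ ε : ℝ, 0 < ε → ∀ᶠ h in 𝓝[>] (0 : ℝ), W h ≤ ENNReal.ofReal ((2 / 3 * S.card + ε) * (h ^ 3 * Real.log (1 / h)))) →
        ∀ χ ∈ S, ∀ ε : ℝ, 0 < ε → ∀ᶠ T in atTop, (1 - ε) * (N χ T (2 * T) : ℝ) ≤ Nd χ T (2 * T)) := by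
  have hτ : ∃ τ : S ≃ S, ∀ χ : S, (τ χ).1 = χ.1⁻¹ :=
    ⟨⟨fun χ => ⟨χ.1⁻¹, hS _ χ.2⟩, fun χ => ⟨χ.1⁻¹, hS _ χ.2⟩, fun χ => Subtype.ext (inv_inv χ.1), fun χ => Subtype.ext (inv_inv χ.1)⟩,
      fun χ => rfl⟩
  obtain ⟨τ, hτ⟩ := hτ
  have k := dir_sd2 (χ := fun χ : S => χ.1) (fun χ => hp χ.1 χ.2) τ hτ
  rw [m_eq, lam_eq, ords_eq, total_eq, grh_iff, Fintype.card_coe] at k
  obtain ⟨c, k1, W, k2, k3, k6, k7, k4, k5⟩ := k
  refine ⟨c, k1, W, k2, k3, fun ε hε => ?_, k4, fun h χ hχ ε hε => ?_⟩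
  · filter_upwards [k7 ε hε] with h h1
    rw [← Finset.sum_coe_sort S]
    exact h1
  · have hpi := Real.pi_pos
    have e : Real.pi ^ 4 / 32 * (32 * (ε / 2) / Real.pi ^ 4) = ε / 2 := by
      field_simp
    filter_upwards [(k5 _ (by positivity) (h (32 * (ε / 2) / Real.pi ^ 4) (by positivity))).2 ⟨χ, hχ⟩ (ε / 2) (by positivity)] with T hT
    have h1 := hT.2
    rw [e] at h1
    refine le_trans (le_of_eq ?_) h1
    show (1 - ε) * (H370.NN (LFunction χ) T (2 * T) : ℝ) = _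
    ring

end Pool.Agent.Results.MP_f259ea_nt.SecondDifferences
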